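import Pool.Agent.ANT.Main
import Pool.Agent.ANT.Cmp

set_option autoImplicit false

namespace Pool.Agent.Results.MP_89809f_an.AsymptoticallyDiagonal

open Filter Topology Pool.Agent.ANT

/-- Let `X` be as in Q1: reflexive, with an unconditional finite-dimensional Schauder
decomposition whose blocks `F_n` (spanned by `e n i`, `i < m n`) are uniformly isomorphic to
`l_1 ^ (m n)`, with coordinates `c n i`. If `B(X)` is a Grothendieck space, then any parts `H n`
of the blocks of unbounded size contain parts `H' n` of unbounded size such that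
(i) for every bounded operator `T` the compressions of `T` to `[e n i : i ∈ H' n]` are
asymptotically diagonal in norm, and
(ii) consequently no two sequences `(e n (s n))`, `(e n (t n))`, `n ∈ K`, with `s n ≠ t n` in `H' n`
are comparable: for no infinite `K` the finite sums of the matrix units
`x ↦ c n (s n) x • e n (t n)`, `n ∈ K`, are uniformly bounded. -/
theorem result {𝕜 : Type*} [RCLike 𝕜] {X : Type*} [NormedAddCommGroup X] [NormedSpace 𝕜 X]
    [CompleteSpace X] (hX : IsReflexive 𝕜 X) (m : ℕ → ℕ) (e : ℕ → ℕ → X) (c : ℕ → ℕ → X → 𝕜)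
    (h : IsL1Decomposition m e c) (hG : IsGrothendieck 𝕜 (X →L[𝕜] X))
    (H : ℕ → Finset ℕ) (hHm : ∀ n, ∀ i ∈ H n, i < m n) (hH : ∀ k, ∃ n ≥ k, k ≤ (H n).card) :
    ∃ H' : ℕ → Finset ℕ, (∀ n, H' n ⊆ H n) ∧ (∀ k, ∃ n ≥ k, k ≤ (H' n).card) ∧
      (∀ (T : X →L[𝕜] X), ∀ δ > 0,
        {n | ∃ i ∈ H' n, δ < ∑ j ∈ (H' n).erase i, ‖c n j (T (e n i))‖}.Finite) ∧
      ∀ (K : Set ℕ) (s t : ℕ → ℕ), K.Infinite → (∀ n ∈ K, s n ∈ H' n ∧ t n ∈ H' n ∧ s n ≠ t n) →
        ∀ B : ℝ, ∃ E : Finset ℕ, (E : Set ℕ) ⊆ K ∧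
          ∃ x, B * ‖x‖ < ‖∑ n ∈ E, c n (s n) x • e n (t n)‖ := by
  obtain ⟨H', hH', hc, hT⟩ := main hX hG h hH hHm
  refine ⟨H', hH', hc, hT, ?_⟩
  intro K s t hK hst B
  by_contra hcon
  push Not at hcon
  obtain ⟨T, hT1⟩ := exists_op h K s t (fun n hn => hHm n _ (hH' n (hst n hn).1))
    (fun n hn => hHm n _ (hH' n (hst n hn).2.1)) B hcon
  refine hK ((hT T (1 / 2) one_half_pos).subset ?_)
  intro n hn
  refine ⟨s n, (hst n hn).1, ?_⟩
  have h1 : ‖c n (t n) (T (e n (s n)))‖ ≤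
      ∑ j ∈ (H' n).erase (s n), ‖c n j (T (e n (s n)))‖ :=
    Finset.single_le_sum (f := fun j => ‖c n j (T (e n (s n)))‖) (fun _ _ => norm_nonneg _)
      (Finset.mem_erase.mpr ⟨(hst n hn).2.2.symm, (hst n hn).2.1⟩)
  rw [hT1 n hn, norm_one] at h1
  linarith

end Pool.Agent.Results.MP_89809f_an.AsymptoticallyDiagonal
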