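import Mathlib
import Pool.Agent.CALQ.Fin

/-!
# The Grothendieck property of `B(X)`, the Calkin algebra and block-diagonal operators
(MP_89809f_an)

Let `X` be a reflexive Banach space with an unconditional finite-dimensional Schauder
decomposition `(F n)` (for instance a space as in Q1). Then `B(X)` is a Grothendieck space if and
only if the Calkin algebra `B(X) / K(X)` is one, and if and only if for every blocking of the
decomposition the algebra of the block-diagonal operators is one. If every bounded operator on `X`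
is the sum of a multiplier (a multiple of the identity on every `F n`) and a compact operator, then
`B(X)` is a Grothendieck space.
-/

set_option autoImplicit false

namespace Pool.Agent.Results.MP_89809f_an.CalkinBlocks

open Filter Pool.Agent.CALQ

theorem result (𝕜 : Type) [RCLike 𝕜] (X : Type) [NormedAddCommGroup X] [NormedSpace 𝕜 X]
    [CompleteSpace X] (hr : Pool.Agent.ANT.IsReflexive 𝕜 X) (F : ℕ → Submodule 𝕜 X)
    (hF : IsUnconditionalFDD F) :
    [Pool.Agent.ANT.IsGrothendieck 𝕜 (X →L[𝕜] X),
      Pool.Agent.ANT.IsGrothendieck 𝕜 ((X →L[𝕜] X) ⧸ compacts 𝕜 X),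
      ∀ t : ℕ → ℕ, StrictMono t → t 0 = 0 →
        Pool.Agent.ANT.IsGrothendieck 𝕜 (BlockDiag F t)].TFAE ∧
    ((∀ T : X →L[𝕜] X, ∃ (a : ℕ → 𝕜) (K : X →L[𝕜] X), IsCompactOperator K ∧
        ∀ n, ∀ x ∈ F n, T x = a n • x + K x) →
      Pool.Agent.ANT.IsGrothendieck 𝕜 (X →L[𝕜] X)) :=
  ⟨criterion hr hF, mult_compact hr hF⟩

end Pool.Agent.Results.MP_89809f_an.CalkinBlocks
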