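import Mathlib
import Pool.Agent.DOMI.Moves

/-!
# Uniform domination when `B(X)` is a Grothendieck space (MP_89809f_an)

`X` has an unconditional finite-dimensional decomposition with blocks uniformly isomorphic to
`ℓ_1^{m n}`, with coordinates `c n i`. If `B(X)` is a Grothendieck space (or just contains no
complemented copy of `ℓ_1`), then every bounded sequence of vectors `x n` can be moved by bounded
operators, block by block, only to boundedly many places: on an infinite set of blocks the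
coordinates of all `T (x n)`, `‖T‖ ≤ K`, in the `n`-th block are dominated, up to `ε`, by one
non-negative vector `b n` of norm at most `L` which does not depend on `T`. In particular `B(X)`
contains a complemented copy of `ℓ_1`, and is not a Grothendieck space, if operators `S r` of
bounded norms move one bounded sequence `x n` to pairwise different places `p n r` of the blocks.
-/

set_option autoImplicit false

namespace Pool.Agent.Results.MP_89809f_an.Domination

open Filter Pool.Agent.ANT Pool.Agent.DOMI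

theorem result (𝕜 : Type) [RCLike 𝕜] (X : Type) [NormedAddCommGroup X] [NormedSpace 𝕜 X]
    [CompleteSpace X] (m : ℕ → ℕ) (e : ℕ → ℕ → X) (c : ℕ → ℕ → X → 𝕜)
    (h : IsL1Decomposition m e c) (x : ℕ → X) (M : ℝ) (hx : ∀ n, ‖x n‖ ≤ M) (K ε : ℝ)
    (hε : 0 < ε) (B : Set ℕ) (hBi : B.Infinite) :
    ((Pool.Agent.ANT.IsGrothendieck 𝕜 (X →L[𝕜] X) ∨ ¬ ComplementedL1 𝕜 (X →L[𝕜] X)) →
      ∃ A ⊆ B, A.Infinite ∧ ∃ (L : ℝ) (b : ℕ → ℕ → ℝ),
        (∀ n i, 0 ≤ b n i) ∧ (∀ n, ∑ i ∈ Finset.range (m n), b n i ≤ L) ∧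
        ∀ T : X →L[𝕜] X, ‖T‖ ≤ K → ∀ᶠ n in atTop, n ∈ A →
          ∑ i ∈ Finset.range (m n), max (‖c n i (T (x n))‖ - b n i) 0 ≤ ε) ∧
    (∀ (S : ℕ → X →L[𝕜] X) (p : ℕ → ℕ → ℕ), (∀ r, ‖S r‖ ≤ K) →
      (∀ r, ∀ᶠ n in atTop, n ∈ B → p n r < m n ∧ ε ≤ ‖c n (p n r) (S r (x n))‖) →
      (∀ r s, r ≠ s → ∀ᶠ n in atTop, n ∈ B → p n r ≠ p n s) →
      ComplementedL1 𝕜 (X →L[𝕜] X) ∧ ¬ Pool.Agent.ANT.IsGrothendieck 𝕜 (X →L[𝕜] X)) := by
  refine ⟨fun hB => ?_, fun S p hS hbig hne => ?_⟩
  · refine domination_lit h ?_ x M hx K ε hε B hBi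
    rcases hB with hB | hB
    · exact fun h1 => not_ant h1 hB
    · exact hB
  · have h1 := moves_lit h x M hx S K hS B hBi p ε hε hbig hne
    exact ⟨h1, not_ant h1⟩

end Pool.Agent.Results.MP_89809f_an.Domination
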