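import Mathlib
import Pool.Agent.DOMI.Orb

/-!
# Orbits of bounded groups inside the blocks (MP_89809f_an)

`X` is a reflexive space with an unconditional finite-dimensional decomposition with blocks `F n`
uniformly isomorphic to `ℓ_1^{m n}`, with coordinates `c n i`, and `G` is a bounded group of
invertible operators. If `B(X)` is a Grothendieck space (or just contains no complemented copy of
`ℓ_1`), then the orbits `G x` which stay in the block of `x`, `‖x‖ ≤ 1`, are uniformly almost order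
bounded: up to `ε`, each of them lies below one vector `b` of norm at most `L`, where `L` does
not depend on the block or on `x`. In particular `B(X)` contains a complemented copy of `ℓ_1`, and
is not a Grothendieck space, if such orbits have coordinates of size `ε` at arbitrarily many places.
-/

set_option autoImplicit false

namespace Pool.Agent.Results.MP_89809f_an.GroupOrbits

open Filter Pool.Agent.ANT Pool.Agent.DOMI

theorem result (𝕜 : Type) [RCLike 𝕜] (X : Type) [NormedAddCommGroup X] [NormedSpace 𝕜 X]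
    [CompleteSpace X] (hr : Pool.Agent.ANT.IsReflexive 𝕜 X) (m : ℕ → ℕ) (e : ℕ → ℕ → X)
    (c : ℕ → ℕ → X → 𝕜) (h : IsL1Decomposition m e c)
    (G : Subgroup (X ≃L[𝕜] X)) (K : ℝ) (hK : ∀ g ∈ G, ∀ x, ‖g x‖ ≤ K * ‖x‖)
    (ε : ℝ) (hε : 0 < ε) :
    ((Pool.Agent.ANT.IsGrothendieck 𝕜 (X →L[𝕜] X) ∨ ¬ ComplementedL1 𝕜 (X →L[𝕜] X)) →
      ∃ L : ℝ, ∀ (n : ℕ) (x : X), ‖x‖ ≤ 1 →
        (∀ g ∈ G, ∃ a : ℕ → 𝕜, g x = ∑ i ∈ Finset.range (m n), a i • e n i) →
        ∃ b : ℕ → ℝ, (∀ i, 0 ≤ b i) ∧ ∑ i ∈ Finset.range (m n), b i ≤ L ∧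
          ∀ g ∈ G, ∑ i ∈ Finset.range (m n), max (‖c n i (g x)‖ - b i) 0 ≤ ε) ∧
    ((∀ N : ℕ, ∃ (n : ℕ) (x : X), ‖x‖ ≤ 1 ∧
        (∀ g ∈ G, ∃ a : ℕ → 𝕜, g x = ∑ i ∈ Finset.range (m n), a i • e n i) ∧
        N ≤ {j : ℕ | j < m n ∧ ∃ g ∈ G, ε ≤ ‖c n j (g x)‖}.ncard) →
      ComplementedL1 𝕜 (X →L[𝕜] X) ∧ ¬ Pool.Agent.ANT.IsGrothendieck 𝕜 (X →L[𝕜] X)) := by
  have hr' : Pool.Agent.DOMI.IsReflexive 𝕜 X := fun P => by
    obtain ⟨x, hx⟩ := hr P
    exact ⟨x, by ext f; exact (hx f).symm⟩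
  refine ⟨fun hB => ?_, fun hlarge => ?_⟩
  · refine orbit_dom hr' h ?_ G K hK ε hε
    rcases hB with hB | hB
    · exact fun h1 => not_ant h1 hB
    · exact hB
  · have h1 := orbit_class hr' h G K hK ε hε hlarge
    exact ⟨h1, not_ant h1⟩

end Pool.Agent.Results.MP_89809f_an.GroupOrbits
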